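import Mathlib

namespace Pool.Agent.Results.MP_cb142b_pr.Hit

open MeasureTheory Set
open scoped ENNReal Classical

noncomputable section

variable {V : Type} [Fintype V] (G : SimpleGraph V)

/-- Jump probabilities of simple random walk: `P(x,y) = 1/deg x` for `x ~ y`. -/
def P (x y : V) : ℝ := if G.Adj x y then 1 / (G.degree x : ℝ) else 0

/-- Stationary law `deg x / (2|E|)`. -/
def piw (x : V) : ℝ := (G.degree x : ℝ) / (2 * (G.edgeFinset.card : ℝ))

/-- Dirichlet form. -/
def dir (h : V → ℝ) : ℝ := (1 / 2) * ∑ x, ∑ y, piw G x * P G x y * (h x - h y) ^ 2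

/-- Variance under the stationary law. -/
def var (h : V → ℝ) : ℝ := ∑ x, piw G x * (h x - ∑ y, piw G y * h y) ^ 2

/-- Stationary mass of the support. -/
def suppMass (h : V → ℝ) : ℝ := ∑ x with h x ≠ 0, piw G x

/-- Spectral profile (`⊤` if there is no admissible `h`). -/
def Lam (ε : ℝ) : ℝ≥0∞ :=
  ⨅ (h : V → ℝ) (_ : var G h = 1) (_ : suppMass G h ≤ ε), ENNReal.ofReal (dir G h)

/-- Smallest stationary mass. -/
def piMin : ℝ := ⨅ x, piw G x

/-- Spectral-profile time. -/
def tsp : ℝ≥0∞ := ∫⁻ δ in Ioc (4 * piMin G) 16, 2 / (ENNReal.ofReal δ * Lam G δ)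

/-- `avoid y k x`: probability that the jump chain started at `x` is different from `y` at
all of the steps `0, …, k`. -/
def avoid (y : V) : ℕ → V → ℝ
  | 0, x => if x = y then 0 else 1
  | k + 1, x => if x = y then 0 else ∑ z, P G x z * avoid y k z

/-- `P_x(T_y > t)` for the continuous-time walk with generator `P - I`: the number of jumps up to
time `t` is Poisson with mean `t`, independent of the jump chain. -/
def surv (x y : V) (t : ℝ) : ℝ≥0∞ :=
  ∑' k : ℕ, ENNReal.ofReal (Real.exp (-t) * t ^ k / (k.factorial : ℝ) * avoid G y k x)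

/-- `E_x[T_y] = ∫_0^∞ P_x(T_y > t) dt`. -/
def EHit (x y : V) : ℝ≥0∞ := ∫⁻ t in Ioi (0 : ℝ), surv G x y t

/-- Maximal expected hitting time. -/
def thit : ℝ≥0∞ := ⨆ x, ⨆ y, EHit G x y

/-! ### Basic facts -/

lemma P_nonneg (x y : V) : 0 ≤ P G x y := by
  unfold P; split_ifs <;> positivity

lemma piw_nonneg (x : V) : 0 ≤ piw G x := by
  unfold piw; positivity

lemma sum_P (x : V) (hx : 0 < G.degree x) : ∑ y, P G x y = 1 := by
  unfold P
  rw [← Finset.sum_filter, Finset.sum_const, nsmul_eq_mul]
  have : (Finset.univ.filter fun y => G.Adj x y).card = G.degree x := by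
    rw [← SimpleGraph.card_neighborFinset_eq_degree, SimpleGraph.neighborFinset_eq_filter]
  rw [this]
  have : (G.degree x : ℝ) ≠ 0 := by positivity
  field_simp

lemma sum_P_le (x : V) : ∑ y, P G x y ≤ 1 := by
  rcases Nat.eq_zero_or_pos (G.degree x) with h | h
  · have : ∀ y, P G x y = 0 := by
      intro y; unfold P; rw [h]; simp
    simp [this]
  · exact (sum_P G x h).le

lemma rev (x y : V) : piw G x * P G x y = piw G y * P G y x := by
  unfold piw P
  by_cases h : G.Adj x y
  · have h1 : (G.degree x : ℝ) ≠ 0 := by have := h.degree_pos_left; positivity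
    have h2 : (G.degree y : ℝ) ≠ 0 := by have := h.degree_pos_right; positivity
    rw [if_pos h, if_pos h.symm]
    field_simp
  · rw [if_neg h, if_neg (fun h' => h h'.symm)]; simp

lemma sum_piw (hE : 0 < G.edgeFinset.card) : ∑ x, piw G x = 1 := by
  unfold piw
  rw [← Finset.sum_div]
  have h := G.sum_degrees_eq_twice_card_edges
  have h' : (∑ x, (G.degree x : ℝ)) = 2 * (G.edgeFinset.card : ℝ) := by exact_mod_cast h
  rw [h']
  have : (G.edgeFinset.card : ℝ) ≠ 0 := by positivity
  field_simp

/-- bilinear Dirichlet form -/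
def B (f g : V → ℝ) : ℝ := (1 / 2) * ∑ x, ∑ y, piw G x * P G x y * ((f x - f y) * (g x - g y))

lemma B_self (f : V → ℝ) : B G f f = dir G f := by
  unfold B dir; simp only [sq]

lemma B_eq (hdeg : ∀ x, 0 < G.degree x) (f g : V → ℝ) :
    B G f g = ∑ x, piw G x * f x * (g x - ∑ z, P G x z * g z) := by
  unfold B
  have h1 : ∑ x, ∑ y, piw G x * P G x y * (f y * (g y - g x))
      = ∑ x, ∑ y, piw G x * P G x y * (f x * (g x - g y)) := by
    rw [Finset.sum_comm]
    refine Finset.sum_congr rfl fun x _ => Finset.sum_congr rfl fun y _ => ?_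
    rw [rev G y x]
  have h2 : ∑ x, ∑ y, piw G x * P G x y * ((f x - f y) * (g x - g y))
      = ∑ x, ∑ y, piw G x * P G x y * (f x * (g x - g y))
        + ∑ x, ∑ y, piw G x * P G x y * (f y * (g y - g x)) := by
    rw [← Finset.sum_add_distrib]
    refine Finset.sum_congr rfl fun x _ => ?_
    rw [← Finset.sum_add_distrib]
    refine Finset.sum_congr rfl fun y _ => ?_
    ring
  rw [h2, h1]
  have h3 : ∀ x, ∑ y, piw G x * P G x y * (f x * (g x - g y))
      = piw G x * f x * (g x - ∑ z, P G x z * g z) := by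
    intro x
    have : ∑ y, piw G x * P G x y * (f x * (g x - g y))
        = piw G x * f x * (g x * ∑ z, P G x z - ∑ z, P G x z * g z) := by
      rw [Finset.mul_sum, ← Finset.sum_sub_distrib, Finset.mul_sum]
      refine Finset.sum_congr rfl fun y _ => ?_
      ring
    rw [this, sum_P G x (hdeg x), mul_one]
  simp only [h3]
  ring

lemma B_cs (f g : V → ℝ) : B G f g ^ 2 ≤ dir G f * dir G g := by
  unfold B dir
  have h := Finset.sum_sq_le_sum_mul_sum_of_sq_le_mul (Finset.univ : Finset (V × V))
    (r := fun p => piw G p.1 * P G p.1 p.2 * ((f p.1 - f p.2) * (g p.1 - g p.2)))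
    (f := fun p => piw G p.1 * P G p.1 p.2 * (f p.1 - f p.2) ^ 2)
    (g := fun p => piw G p.1 * P G p.1 p.2 * (g p.1 - g p.2) ^ 2)
    (fun p _ => mul_nonneg (mul_nonneg (piw_nonneg G _) (P_nonneg G _ _)) (sq_nonneg _))
    (fun p _ => mul_nonneg (mul_nonneg (piw_nonneg G _) (P_nonneg G _ _)) (sq_nonneg _))
    (fun p _ => le_of_eq (by ring))
  simp only [Fintype.sum_prod_type] at h
  nlinarith [h]

lemma dir_nonneg (f : V → ℝ) : 0 ≤ dir G f := by
  unfold dir
  refine mul_nonneg (by norm_num) (Finset.sum_nonneg fun x _ => Finset.sum_nonneg fun y _ => ?_)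
  exact mul_nonneg (mul_nonneg (piw_nonneg G _) (P_nonneg G _ _)) (sq_nonneg _)

lemma B_hit (hdeg : ∀ x, 0 < G.degree x) (hE : 0 < G.edgeFinset.card) (y : V) (u : V → ℝ)
    (hu : ∀ x, x ≠ y → u x = 1 + ∑ z, P G x z * u z) (f : V → ℝ) :
    B G f u = ∑ x, piw G x * f x - f y := by
  have h0 : ∑ x, piw G x * (u x - ∑ z, P G x z * u z) = 0 := by
    have h := B_eq G hdeg (fun _ => 1) u
    simp only [mul_one] at h
    rw [← h]; unfold B; simp
  rw [B_eq G hdeg]
  have h1 : ∑ x, piw G x * f x * (u x - ∑ z, P G x z * u z)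
      = ∑ x, piw G x * (f x - f y) + f y * ∑ x, piw G x * (u x - ∑ z, P G x z * u z) := by
    rw [Finset.mul_sum, ← Finset.sum_add_distrib]
    refine Finset.sum_congr rfl fun x _ => ?_
    by_cases hx : x = y
    · subst hx; ring
    · rw [hu x hx]; ring
  rw [h1, h0]
  simp only [mul_sub, Finset.sum_sub_distrib, ← Finset.sum_mul, sum_piw G hE]
  ring

lemma point_bound (hdeg : ∀ x, 0 < G.degree x) (hE : 0 < G.edgeFinset.card) (y : V) (u : V → ℝ)
    (hy : u y = 0) (hu : ∀ x, x ≠ y → u x = 1 + ∑ z, P G x z * u z) (T : ℝ) (hT : ∀ x, u x ≤ T)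
    (f : V → ℝ) : (f y - ∑ x, piw G x * f x) ^ 2 ≤ dir G f * T := by
  have h1 := B_cs G f u
  rw [B_hit G hdeg hE y u hu f] at h1
  have h2 : dir G u ≤ T := by
    rw [← B_self, B_hit G hdeg hE y u hu u, hy, sub_zero]
    calc ∑ x, piw G x * u x ≤ ∑ x, piw G x * T :=
          Finset.sum_le_sum fun x _ => mul_le_mul_of_nonneg_left (hT x) (piw_nonneg G x)
      _ = T := by rw [← Finset.sum_mul, sum_piw G hE, one_mul]
  calc (f y - ∑ x, piw G x * f x) ^ 2 = (∑ x, piw G x * f x - f y) ^ 2 := by ring
    _ ≤ dir G f * dir G u := h1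
    _ ≤ dir G f * T := mul_le_mul_of_nonneg_left h2 (dir_nonneg G f)

lemma var_bound (hE : 0 < G.edgeFinset.card) (f : V → ℝ) (D : ℝ)
    (hD : ∀ y, (f y - ∑ x, piw G x * f x) ^ 2 ≤ D) : var G f ≤ 2 * suppMass G f * D := by
  set m := ∑ x, piw G x * f x with hm
  set s := suppMass G f with hs
  have hs0 : 0 ≤ s := Finset.sum_nonneg fun x _ => piw_nonneg G x
  have hD0 : 0 ≤ D := by
    have : Nonempty V := by
      by_contra h
      rw [not_nonempty_iff] at h
      have := sum_piw G hE
      simp at this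
    obtain ⟨y⟩ := this
    exact (sq_nonneg _).trans (hD y)
  have hvarD : var G f ≤ D := by
    unfold var
    calc ∑ x, piw G x * (f x - m) ^ 2 ≤ ∑ x, piw G x * D :=
          Finset.sum_le_sum fun x _ => mul_le_mul_of_nonneg_left (hD x) (piw_nonneg G x)
      _ = D := by rw [← Finset.sum_mul, sum_piw G hE, one_mul]
  by_cases hs2 : 1 / 2 ≤ s
  · nlinarith
  push Not at hs2
  -- small support
  have hc : ∑ x with ¬ (f x ≠ 0), piw G x = 1 - s := by
    have := Finset.sum_filter_add_sum_filter_not Finset.univ (fun x => f x ≠ 0) (piw G)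
    rw [sum_piw G hE] at this
    have h2 : s = ∑ x with f x ≠ 0, piw G x := rfl
    linarith
  have hA : ∑ x with f x ≠ 0, piw G x * (f x - m) ^ 2 ≤ s * D := by
    have h2 : s = ∑ x with f x ≠ 0, piw G x := rfl
    rw [h2, Finset.sum_mul]
    exact Finset.sum_le_sum fun x _ => mul_le_mul_of_nonneg_left (hD x) (piw_nonneg G x)
  have hB : ∑ x with ¬ (f x ≠ 0), piw G x * (f x - m) ^ 2 = (1 - s) * m ^ 2 := by
    rw [← hc, Finset.sum_mul]
    refine Finset.sum_congr rfl fun x hx => ?_
    have : f x = 0 := by simpa using (Finset.mem_filter.1 hx).2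
    rw [this]; ring
  have hC : ∑ x with f x ≠ 0, piw G x * (f x - m) = (1 - s) * m := by
    have h2 : s = ∑ x with f x ≠ 0, piw G x := rfl
    have h3 : ∑ x with f x ≠ 0, piw G x * f x = m := by
      rw [hm]
      refine Finset.sum_filter_of_ne fun x _ hx h => hx ?_
      rw [h, mul_zero]
    simp only [mul_sub, Finset.sum_sub_distrib, ← Finset.sum_mul, h3, ← h2]
    ring
  have hCS := Finset.sum_sq_le_sum_mul_sum_of_sq_le_mul (Finset.univ.filter fun x => f x ≠ 0)
    (r := fun x => piw G x * (f x - m)) (f := fun x => piw G x)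
    (g := fun x => piw G x * (f x - m) ^ 2) (fun x _ => piw_nonneg G x)
    (fun x _ => mul_nonneg (piw_nonneg G x) (sq_nonneg _)) (fun x _ => le_of_eq (by ring))
  rw [hC] at hCS
  have h2 : s = ∑ x with f x ≠ 0, piw G x := rfl
  rw [← h2] at hCS
  have hv : var G f = ∑ x with f x ≠ 0, piw G x * (f x - m) ^ 2 + (1 - s) * m ^ 2 := by
    rw [← hB, Finset.sum_filter_add_sum_filter_not]
    rfl
  have h4 : ((1 - s) * m) ^ 2 ≤ s * (s * D) := hCS.trans (mul_le_mul_of_nonneg_left hA hs0)
  have h5 : (1 - s) * m ^ 2 ≤ s * D := by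
    have hpos : 0 < 1 - s := by linarith
    have : (1 - s) * ((1 - s) * m ^ 2) ≤ (1 - s) * (s * D) := by
      have : s * (s * D) ≤ (1 - s) * (s * D) :=
        mul_le_mul_of_nonneg_right (by linarith) (mul_nonneg hs0 hD0)
      nlinarith
    exact le_of_mul_le_mul_left this hpos
  rw [hv]; linarith

/-! ### The expected hitting time -/

lemma avoid_nonneg (y : V) : ∀ k x, 0 ≤ avoid G y k x
  | 0, x => by unfold avoid; split_ifs <;> norm_num
  | k + 1, x => by
    unfold avoid; split_ifs
    · exact le_rfl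
    · exact Finset.sum_nonneg fun z _ => mul_nonneg (P_nonneg G _ _) (avoid_nonneg y k z)

lemma gamma_int (k : ℕ) (a : ℝ) (ha : 0 ≤ a) :
    ∫⁻ t in Ioi (0 : ℝ), ENNReal.ofReal (Real.exp (-t) * t ^ k / (k.factorial : ℝ) * a)
      = ENNReal.ofReal a := by
  have hk : (0 : ℝ) < (k : ℝ) + 1 := by positivity
  have hint := Real.GammaIntegral_convergent hk
  have hval := Real.Gamma_eq_integral hk
  rw [Real.Gamma_nat_eq_factorial] at hval
  simp only [add_sub_cancel_right, Real.rpow_natCast] at hint hval
  have hf : (k.factorial : ℝ) ≠ 0 := by positivity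
  have hint2 : IntegrableOn (fun t : ℝ => Real.exp (-t) * t ^ k / (k.factorial : ℝ) * a) (Ioi 0) :=
    (hint.div_const _).mul_const _
  rw [← ofReal_integral_eq_lintegral_ofReal hint2]
  · rw [integral_mul_const, integral_div, ← hval, div_self hf, one_mul]
  · filter_upwards [ae_restrict_mem measurableSet_Ioi] with t ht
    have : 0 < t := ht
    simp only [Pi.zero_apply]
    positivity

lemma EHit_eq (x y : V) : EHit G x y = ∑' k, ENNReal.ofReal (avoid G y k x) := by
  unfold EHit surv
  rw [lintegral_tsum]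
  · exact tsum_congr fun k => gamma_int k _ (avoid_nonneg G y k x)
  · intro k
    exact (Measurable.ennreal_ofReal (by fun_prop)).aemeasurable

lemma exists_u (hT : thit G ≠ ⊤) (y : V) : ∃ u : V → ℝ, u y = 0 ∧
    (∀ x, x ≠ y → u x = 1 + ∑ z, P G x z * u z) ∧ ∀ x, u x ≤ (thit G).toReal := by
  have hle : ∀ x, ∑' k, ENNReal.ofReal (avoid G y k x) ≤ thit G := by
    intro x
    rw [← EHit_eq]
    exact le_iSup₂_of_le (f := fun x y => EHit G x y) x y le_rfl
  have hsum : ∀ x, Summable fun k => avoid G y k x := by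
    intro x
    have h := ENNReal.summable_toReal (ne_top_of_le_ne_top hT (hle x))
    refine h.congr fun k => ?_
    exact ENNReal.toReal_ofReal (avoid_nonneg G y k x)
  refine ⟨fun x => ∑' k, avoid G y k x, ?_, ?_, ?_⟩
  · have : ∀ k, avoid G y k y = 0 := by
      intro k; cases k <;> simp [avoid]
    simp [this]
  · intro x hx
    show ∑' k, avoid G y k x = 1 + ∑ z, P G x z * ∑' k, avoid G y k z
    rw [(hsum x).tsum_eq_zero_add]
    have h0 : avoid G y 0 x = 1 := by simp [avoid, hx]
    have h1 : ∀ k, avoid G y (k + 1) x = ∑ z, P G x z * avoid G y k z := by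
      intro k; simp [avoid, hx]
    simp only [h0, h1]
    rw [Summable.tsum_finsetSum (fun z _ => (hsum z).mul_left _)]
    simp only [tsum_mul_left]
  · intro x
    have h := hle x
    rw [← ENNReal.ofReal_tsum_of_nonneg (fun k => avoid_nonneg G y k x) (hsum x)] at h
    exact (ENNReal.ofReal_le_iff_le_toReal hT).1 h

lemma deg_pos (hG : G.Connected) (hE : 0 < G.edgeFinset.card) (x : V) : 0 < G.degree x := by
  obtain ⟨e, he⟩ := Finset.card_pos.1 hE
  induction e using Sym2.ind with
  | h a b =>
    have hab : G.Adj a b := by simpa using he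
    haveI : Nontrivial V := ⟨⟨a, b, hab.ne⟩⟩
    exact hG.preconnected.degree_pos_of_nontrivial x

lemma key (hG : G.Connected) (hT : thit G ≠ ⊤) (h : V → ℝ) (hv : var G h = 1) (δ : ℝ)
    (hδ : suppMass G h ≤ δ) : 1 ≤ 2 * δ * (dir G h * (thit G).toReal) := by
  rcases Nat.eq_zero_or_pos G.edgeFinset.card with hE | hE
  · exfalso
    unfold var piw at hv
    rw [hE] at hv
    simp at hv
  have hdeg := deg_pos G hG hE
  have hD : ∀ y, (h y - ∑ x, piw G x * h x) ^ 2 ≤ dir G h * (thit G).toReal := by
    intro y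
    obtain ⟨u, h1, h2, h3⟩ := exists_u G hT y
    exact point_bound G hdeg hE y u h1 h2 _ h3 h
  have := var_bound G hE h _ hD
  rw [hv] at this
  refine this.trans (mul_le_mul_of_nonneg_right (by linarith) ?_)
  exact mul_nonneg (dir_nonneg G h) ENNReal.toReal_nonneg

lemma integrand_le (hG : G.Connected) (hT : thit G ≠ ⊤) (δ : ℝ) (hδ : 0 < δ) :
    2 / (ENNReal.ofReal δ * Lam G δ) ≤ 4 * thit G := by
  set T := (thit G).toReal with hTdef
  have hT0 : 0 ≤ T := ENNReal.toReal_nonneg
  have hTe : thit G = ENNReal.ofReal T := (ENNReal.ofReal_toReal hT).symm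
  by_cases hL : Lam G δ = ⊤
  · rw [hL, ENNReal.mul_top (by simpa using hδ)]
    simp
  have hex : ∃ h : V → ℝ, var G h = 1 ∧ suppMass G h ≤ δ := by
    by_contra hne
    apply hL
    unfold Lam
    simp only [iInf_eq_top]
    intro h h1 h2
    exact absurd ⟨h, h1, h2⟩ hne
  obtain ⟨h0, h01, h02⟩ := hex
  have hTpos : 0 < T := by
    have := key G hG hT h0 h01 δ h02
    rcases hT0.lt_or_eq with h | h
    · exact h
    · rw [← hTdef, ← h] at this
      norm_num at this
  have hlow : ENNReal.ofReal (1 / (2 * δ * T)) ≤ Lam G δ := by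
    unfold Lam
    refine le_iInf fun h => le_iInf fun h1 => le_iInf fun h2 => ENNReal.ofReal_le_ofReal ?_
    have := key G hG hT h h1 δ h2
    rw [div_le_iff₀ (by positivity)]
    rw [← hTdef] at this
    linarith
  calc 2 / (ENNReal.ofReal δ * Lam G δ)
      ≤ 2 / (ENNReal.ofReal δ * ENNReal.ofReal (1 / (2 * δ * T))) := by
        gcongr
    _ = 4 * thit G := by
        rw [hTe, ← ENNReal.ofReal_mul hδ.le]
        have h2 : (2 : ℝ≥0∞) = ENNReal.ofReal 2 := by norm_num
        have h4 : (4 : ℝ≥0∞) = ENNReal.ofReal 4 := by norm_num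
        rw [h2, h4, ← ENNReal.ofReal_div_of_pos (by positivity), ← ENNReal.ofReal_mul (by norm_num)]
        congr 1
        field_simp
        norm_num

lemma main_le (hG : G.Connected) : tsp G ≤ 64 * thit G := by
  by_cases hT : thit G = ⊤
  · rw [hT, ENNReal.mul_top (by norm_num)]; exact le_top
  have hmin : 0 ≤ piMin G := Real.iInf_nonneg fun x => piw_nonneg G x
  unfold tsp
  calc ∫⁻ δ in Ioc (4 * piMin G) 16, 2 / (ENNReal.ofReal δ * Lam G δ)
      ≤ ∫⁻ _ in Ioc (4 * piMin G) 16, 4 * thit G := by
        refine setLIntegral_mono' measurableSet_Ioc fun δ hδ => ?_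
        exact integrand_le G hG hT δ (lt_of_le_of_lt (by linarith) hδ.1)
    _ = 4 * thit G * ENNReal.ofReal (16 - 4 * piMin G) := by
        rw [setLIntegral_const, Real.volume_Ioc]
    _ ≤ 4 * thit G * 16 := by
        gcongr
        have h16 : (16 : ℝ≥0∞) = ENNReal.ofReal 16 := by norm_num
        rw [h16]
        exact ENNReal.ofReal_le_ofReal (by linarith)
    _ = 64 * thit G := by ring

/-! ### Finiteness of the hitting time -/

lemma exists_sol (hG : G.Connected) (hE : 0 < G.edgeFinset.card) (y : V) :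
    ∃ u : V → ℝ, u y = 0 ∧ ∀ x, x ≠ y → u x = 1 + ∑ z, P G x z * u z := by
  have hdeg := deg_pos G hG hE
  let Φ : (V → ℝ) →ₗ[ℝ] (V → ℝ) :=
    { toFun := fun f x => if x = y then f x else f x - ∑ z, P G x z * f z
      map_add' := fun f g => by
        funext x
        by_cases hx : x = y
        · simp [hx]
        · simp [hx, mul_add, Finset.sum_add_distrib]; ring
      map_smul' := fun c f => by
        funext x
        by_cases hx : x = y
        · simp [hx]
        · simp only [hx, if_false, Pi.smul_apply, smul_eq_mul, RingHom.id_apply, mul_sub,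
            Finset.mul_sum]
          congr 1
          exact Finset.sum_congr rfl fun z _ => by ring }
  have hinj : Function.Injective Φ := by
    rw [← LinearMap.ker_eq_bot, LinearMap.ker_eq_bot']
    intro f hf
    have hf' : ∀ x, (if x = y then f x else f x - ∑ z, P G x z * f z) = 0 := fun x => congrFun hf x
    have hy : f y = 0 := by simpa using hf' y
    have hd : dir G f = 0 := by
      rw [← B_self, B_eq G hdeg]
      refine Finset.sum_eq_zero fun x _ => ?_
      by_cases hx : x = y
      · rw [hx, hy]; ring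
      · have := hf' x
        rw [if_neg hx] at this
        rw [this, mul_zero]
    have hadj : ∀ a b, G.Adj a b → f a = f b := by
      intro a b hab
      unfold dir at hd
      have hd' : ∑ x, ∑ z, piw G x * P G x z * (f x - f z) ^ 2 = 0 := by linarith
      have hnn : ∀ x z, 0 ≤ piw G x * P G x z * (f x - f z) ^ 2 := fun x z =>
        mul_nonneg (mul_nonneg (piw_nonneg G _) (P_nonneg G _ _)) (sq_nonneg _)
      have h1 := (Finset.sum_eq_zero_iff_of_nonneg
        (fun x _ => Finset.sum_nonneg fun z _ => hnn x z)).1 hd' a (Finset.mem_univ _)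
      have h2 := (Finset.sum_eq_zero_iff_of_nonneg (fun z _ => hnn a z)).1 h1 b (Finset.mem_univ _)
      have hp : 0 < piw G a * P G a b := by
        unfold piw P
        rw [if_pos hab]
        have := hdeg a
        positivity
      have h3 : (f a - f b) ^ 2 = 0 := (mul_eq_zero.1 h2).resolve_left hp.ne'
      have := pow_eq_zero_iff (two_ne_zero) |>.1 h3
      linarith
    funext x
    obtain ⟨w⟩ := hG.preconnected x y
    have : ∀ a b (w : G.Walk a b), f a = f b := by
      intro a b w
      induction w with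
      | nil => rfl
      | cons h _ ih => exact (hadj _ _ h).trans ih
    rw [this x y w, hy]; rfl
  obtain ⟨u, hu⟩ := (LinearMap.injective_iff_surjective.1 hinj) (fun x => if x = y then 0 else 1)
  have hu' : ∀ x, (if x = y then u x else u x - ∑ z, P G x z * u z) = if x = y then 0 else 1 :=
    fun x => congrFun hu x
  refine ⟨u, by simpa using hu' y, fun x hx => ?_⟩
  have := hu' x
  rw [if_neg hx, if_neg hx] at this
  linarith

lemma exists_sol' (hG : G.Connected) (y : V) :
    ∃ u : V → ℝ, u y = 0 ∧ ∀ x, x ≠ y → u x = 1 + ∑ z, P G x z * u z := by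
  rcases Nat.eq_zero_or_pos G.edgeFinset.card with hE | hE
  · have hP : ∀ x z, P G x z = 0 := by
      intro x z
      unfold P
      rw [if_neg]
      intro h
      have : s(x, z) ∈ G.edgeFinset := by simpa using h
      rw [Finset.card_eq_zero.1 hE] at this
      simp at this
    exact ⟨fun x => if x = y then 0 else 1, by simp, fun x hx => by simp [hx, hP]⟩
  · exact exists_sol G hG hE y

lemma EHit_lt_top (hG : G.Connected) (x y : V) : EHit G x y < ⊤ := by
  obtain ⟨u, hy, hu⟩ := exists_sol' G hG y
  set M := ∑ z, |u z| with hM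
  have hM0 : 0 ≤ M := Finset.sum_nonneg fun z _ => abs_nonneg _
  have hMu : ∀ z, 0 ≤ u z + M := by
    intro z
    have h1 : |u z| ≤ M := Finset.single_le_sum (f := fun z => |u z|) (fun z _ => abs_nonneg _)
      (Finset.mem_univ z)
    have := neg_abs_le (u z)
    linarith
  have hS : ∀ N z, ∑ k ∈ Finset.range N, avoid G y k z ≤ u z + M := by
    intro N
    induction N with
    | zero => intro z; simpa using hMu z
    | succ N ih =>
      intro z
      by_cases hz : z = y
      · have : ∀ k, avoid G y k z = 0 := by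
          intro k; cases k <;> simp [avoid, hz]
        simpa [this] using hMu z
      · rw [Finset.sum_range_succ']
        have h0 : avoid G y 0 z = 1 := by simp [avoid, hz]
        have h1 : ∀ k, avoid G y (k + 1) z = ∑ w, P G z w * avoid G y k w := by
          intro k; simp [avoid, hz]
        simp only [h0, h1]
        rw [Finset.sum_comm]
        simp only [← Finset.mul_sum]
        have h2 : ∑ w, P G z w * ∑ k ∈ Finset.range N, avoid G y k w
            ≤ ∑ w, P G z w * (u w + M) :=
          Finset.sum_le_sum fun w _ => mul_le_mul_of_nonneg_left (ih w) (P_nonneg G _ _)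
        have h3 : ∑ w, P G z w * (u w + M) = ∑ w, P G z w * u w + (∑ w, P G z w) * M := by
          simp only [mul_add, Finset.sum_add_distrib, Finset.sum_mul]
        have h4 : (∑ w, P G z w) * M ≤ M := by
          have := sum_P_le G z
          nlinarith
        rw [hu z hz]
        linarith
  have hsum : Summable fun k => avoid G y k x :=
    summable_of_sum_range_le (fun k => avoid_nonneg G y k x) (fun N => hS N x)
  rw [EHit_eq, ← ENNReal.ofReal_tsum_of_nonneg (fun k => avoid_nonneg G y k x) hsum]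
  exact ENNReal.ofReal_lt_top

lemma thit_lt_top (hG : G.Connected) : thit G < ⊤ := by
  have h : thit G ≤ ∑ x, ∑ y, EHit G x y := by
    unfold thit
    refine iSup_le fun x => iSup_le fun y => ?_
    calc EHit G x y ≤ ∑ y, EHit G x y :=
          Finset.single_le_sum (f := fun y => EHit G x y) (fun _ _ => zero_le) (Finset.mem_univ y)
      _ ≤ ∑ x, ∑ y, EHit G x y :=
          Finset.single_le_sum (f := fun x => ∑ y, EHit G x y) (fun _ _ => zero_le)
            (Finset.mem_univ x)
  refine lt_of_le_of_lt h ?_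
  exact ENNReal.sum_lt_top.2 fun x _ => ENNReal.sum_lt_top.2 fun y _ => EHit_lt_top G hG x y

lemma cayley_connected {H : Type} [Group H] (S : Set H) (hS : Subgroup.closure S = ⊤) :
    (SimpleGraph.mulCayley S).Connected := by
  have h : ∀ g : H, ∀ a : H, (SimpleGraph.mulCayley S).Reachable a (a * g) := by
    intro g
    have hg : g ∈ Subgroup.closure S := by rw [hS]; trivial
    induction hg using Subgroup.closure_induction with
    | mem s hs =>
      intro a
      by_cases h : a = a * s
      · rw [← h]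
      · exact SimpleGraph.Adj.reachable
          ((SimpleGraph.mulCayley_adj' S a (a * s)).2 ⟨h, s, hs, Or.inl rfl⟩)
    | one => intro a; rw [mul_one]
    | mul x y _ _ hx hy => intro a; rw [← mul_assoc]; exact (hx a).trans (hy _)
    | inv x _ hx =>
      intro a
      have := hx (a * x⁻¹)
      rw [inv_mul_cancel_right] at this
      exact this.symm
  refine ⟨fun a b => ?_⟩
  have := h (a⁻¹ * b) a
  rwa [mul_inv_cancel_left] at this

theorem result (V : Type) [Fintype V] (G : SimpleGraph V) (hG : G.Connected) :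
    tsp G ≤ 64 * thit G ∧ thit G < ⊤ :=
  ⟨main_le G hG, thit_lt_top G hG⟩

end

end Pool.Agent.Results.MP_cb142b_pr.Hit
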